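import Pool.Agent.Y649.DG.Stm

set_option autoImplicit false

/-! # Project DG (helper649), part CORE: few subfunctions of formulas with determinant gates
(adapted from Pool/Agent/Y638/RF/Core.lean of helper638) -/

namespace Pool.Agent.Y73.DG

open Finset
open Pool.Agent.Y638.RF (Word Cov Un cov_of_finite)
open Pool.Agent.Y649.DG

theorem num1 {α : Type} [DecidableEq α] (E : Finset α) (R : α → ℕ) (hR : ∀ e ∈ E, 1 ≤ R e) :
    E.card ≤ ∑ e ∈ E, R e ∧ ∑ e ∈ E, R e ^ 2 + E.card ^ 2 ≤ (∑ e ∈ E, R e) ^ 2 + E.card := by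
  induction E using Finset.induction_on with
  | empty => simp
  | insert a E ha ih =>
    obtain ⟨h1, h2⟩ := ih (fun e he => hR e (mem_insert_of_mem he))
    have h3 := hR a (mem_insert_self a E)
    rw [sum_insert ha, sum_insert ha, card_insert_of_notMem ha]
    refine ⟨by omega, ?_⟩
    generalize ∑ e ∈ E, R e = S at *
    generalize ∑ e ∈ E, R e ^ 2 = Q at *
    generalize E.card = r at *
    generalize R a = x at *
    have h4 : r ≤ x * S := le_trans h1 (Nat.le_mul_of_pos_left _ h3)
    nlinarith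

theorem num2 {α : Type} [DecidableEq α] (E : Finset α) (R : α → ℕ) (hR : ∀ e ∈ E, 1 ≤ R e)
    (hE : 2 ≤ E.card) :
    ∑ e ∈ E, (3 * R e ^ 2 - 2) + (E.card ^ 2 + 2) ≤ 3 * (∑ e ∈ E, R e) ^ 2 - 2 := by
  obtain ⟨h1, h2⟩ := num1 E R hR
  have h3 : ∑ e ∈ E, (3 * R e ^ 2 - 2) + 2 * E.card = 3 * ∑ e ∈ E, R e ^ 2 := by
    have : ∑ e ∈ E, (3 * R e ^ 2 - 2) + 2 * E.card = ∑ e ∈ E, (3 * R e ^ 2 - 2 + 2) := by
      rw [sum_add_distrib, sum_const, smul_eq_mul]
      ring
    rw [this, mul_sum]
    apply sum_congr rfl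
    intro e he
    have h5 := hR e he
    have : 1 ≤ R e ^ 2 := Nat.one_le_pow _ _ h5
    omega
  have h4 : 2 * E.card ≤ E.card ^ 2 := by nlinarith
  omega

theorem num3 {α : Type} (E : Finset α) (R : α → ℕ) (hR : ∀ e ∈ E, 1 ≤ R e) :
    ∑ e ∈ E, (5 * R e - 4) + 4 * E.card = 5 * ∑ e ∈ E, R e := by
  have : ∑ e ∈ E, (5 * R e - 4) + 4 * E.card = ∑ e ∈ E, (5 * R e - 4 + 4) := by
    rw [sum_add_distrib, sum_const, smul_eq_mul]
    ring
  rw [this, mul_sum]
  apply sum_congr rfl
  intro e he
  have h5 := hR e he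
  omega

theorem wt {M B : ℕ} (r : ℕ) (hB1 : M * (M ^ 2 + M ^ 4) ≤ B) (hB2 : M ^ 2 ≤ B) :
    M ^ (2 * r ^ 2 + 1) * (M ^ 2 + M ^ 4) ≤ B ^ (r ^ 2 + 1) := by
  calc M ^ (2 * r ^ 2 + 1) * (M ^ 2 + M ^ 4) = (M ^ 2) ^ (r ^ 2) * (M * (M ^ 2 + M ^ 4)) := by
        rw [pow_succ, pow_mul]
        ring
    _ ≤ B ^ (r ^ 2) * B := Nat.mul_le_mul (Nat.pow_le_pow_left hB2 _) hB1
    _ = B ^ (r ^ 2 + 1) := (pow_succ _ _).symm

theorem two_live {α : Type} [Fintype α] [DecidableEq α] (R : α → ℕ)
    (h : ¬ ∃ e0, ∀ e, e ≠ e0 → R e = 0) (h1 : 1 ≤ ∑ e, R e) :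
    2 ≤ (univ.filter (fun e => R e ≠ 0)).card := by
  push Not at h
  obtain ⟨j1, hj1⟩ : ∃ j1, R j1 ≠ 0 := by
    by_contra hc
    push Not at hc
    simp [hc] at h1
  obtain ⟨j2, hj2, hj3⟩ := h j1
  have : ({j1, j2} : Finset α) ⊆ univ.filter (fun j => R j ≠ 0) := by
    intro j hj
    rw [mem_insert, mem_singleton] at hj
    rw [mem_filter]
    rcases hj with rfl | rfl
    · exact ⟨mem_univ _, hj1⟩
    · exact ⟨mem_univ _, hj3⟩
  have h3 := card_le_card this
  rwa [card_pair hj2.symm] at h3

/-- the numerical facts for a gate with at least two live inputs -/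
theorem gate {α : Type} [Fintype α] [DecidableEq α] (R : α → ℕ)
    (h : 2 ≤ (univ.filter (fun e => R e ≠ 0)).card) :
    ∑ e, (3 * R e ^ 2 - 2) + ((univ.filter (fun e => R e ≠ 0)).card ^ 2 + 2) ≤
      3 * (∑ e, R e) ^ 2 - 2 ∧
    ∑ e ∈ univ.filter (fun e => R e ≠ 0), (5 * R e - 4) +
      4 * (univ.filter (fun e => R e ≠ 0)).card = 5 * ∑ e, R e ∧
    ∑ e, (3 * R e ^ 2 - 2) = ∑ e ∈ univ.filter (fun e => R e ≠ 0), (3 * R e ^ 2 - 2) ∧
    (univ.filter (fun e => R e ≠ 0)).card ≤ ∑ e, R e := by
  have hR : ∀ e ∈ univ.filter (fun e => R e ≠ 0), 1 ≤ R e := by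
    intro e he
    have := (mem_filter.1 he).2
    omega
  have e1 : ∑ e, (3 * R e ^ 2 - 2) = ∑ e ∈ univ.filter (fun e => R e ≠ 0), (3 * R e ^ 2 - 2) := by
    symm
    apply sum_subset (filter_subset _ _)
    intro e _ he
    rw [mem_filter, not_and, not_not] at he
    simp [he (mem_univ e)]
  have e2 : ∑ e, R e = ∑ e ∈ univ.filter (fun e => R e ≠ 0), R e := by
    symm
    apply sum_subset (filter_subset _ _)
    intro e _ he
    rw [mem_filter, not_and, not_not] at he
    exact he (mem_univ e)
  refine ⟨?_, ?_, e1, ?_⟩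
  · rw [e1, e2]
    exact num2 _ R hR h
  · rw [e2]
    exact num3 _ R hR
  · rw [e2]
    exact (num1 _ R hR).1

theorem det_affine {m : ℕ} (N : Matrix (Fin m) (Fin m) ℝ) (a0 b0 : Fin m) :
    ∃ α β : ℝ, ∀ t : ℝ,
      (Matrix.of fun a b => if (a, b) = (a0, b0) then t else N a b).det = t * α + β := by
  refine ⟨(N.updateRow a0 (Pi.single b0 1)).det,
    (N.updateRow a0 (fun b => if b = b0 then 0 else N a0 b)).det, fun t => ?_⟩
  have h : (Matrix.of fun a b => if (a, b) = (a0, b0) then t else N a b) =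
      N.updateRow a0 (t • (Pi.single b0 (1 : ℝ)) + (fun b => if b = b0 then 0 else N a0 b)) := by
    ext a b
    by_cases ha : a = a0
    · subst ha
      rw [Matrix.updateRow_self]
      by_cases hb : b = b0
      · subst hb
        simp
      · simp [hb]
    · rw [Matrix.updateRow_ne ha]
      simp [ha]
  rw [h, Matrix.det_updateRow_add, Matrix.det_updateRow_smul]

variable {ι : Type} {D : ι → Type} [DecidableEq ι] {w q : ℕ}

open Classical in
theorem boolSet {Y : Type} [Fintype Y] (i : ι) (y : Y → D i) (M B : ℕ) (hB3 : 1 ≤ B)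
    (G : Fml ι D w q)
    (hG : 1 ≤ G.reads i →
      Cov M (5 * G.reads i - 4) (B ^ (3 * G.reads i ^ 2 - 2)) (G.Sub i y))
    (hM : 4 * Fintype.card Y * (5 * G.reads i - 4) + 2 ≤ M) :
    ∃ S : Finset (Y → Bool), S.card ≤ B ^ (3 * G.reads i ^ 2 - 2) ∧
      ∀ z, (fun v => decide (G.reads i ≠ 0 ∧ 0 < G.eval (Function.update z i (y v)))) ∈ S := by
  by_cases hj : G.reads i = 0
  · refine ⟨{fun _ => false}, ?_, fun z => ?_⟩
    · rw [card_singleton]
      exact Nat.one_le_pow _ _ hB3
    · rw [mem_singleton]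
      funext v
      simp [hj]
  · obtain ⟨S, hS1, hS2⟩ := (hG (by omega)).bool hM
    refine ⟨S, hS1, fun z => ?_⟩
    have h9 := hS2 _ (G.mem_sub_id i y z)
    have e : (fun v => decide (G.reads i ≠ 0 ∧
        0 < G.eval (Function.update z i (y v)))) =
        fun v => decide (0 < G.eval (Function.update z i (y v))) := by
      funext v
      rw [Bool.eq_iff_iff, decide_eq_true_iff, decide_eq_true_iff]
      simp [hj]
    rw [e]
    exact h9

open Classical in
theorem cov (hc : S_COV) (hr : S_REG) {Y : Type} [Fintype Y] (i : ι) (y : Y → D i) (s M B : ℕ)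
    (hq : 1 ≤ q) (hM : 4 * Fintype.card Y * (5 * s + 1) + 2 + s ≤ M)
    (hB : B = 2 * M ^ 5 * q ^ (w - 1)) (F : Fml ι D w q) (hs : F.size ≤ s)
    (h : 1 ≤ F.reads i) :
    Cov M (5 * F.reads i - 4) (B ^ (3 * F.reads i ^ 2 - 2)) (F.Sub i y) := by
  obtain ⟨hB1, hB2, hB3⟩ := Pool.Agent.Y638.RF.Fml.base_bound (M := M) (B := B) (q := q) (w := w)
    (by omega) hq hB
  have hB4 : M ^ 2 ≤ B := by
    refine le_trans ?_ hB1
    refine (Nat.le_add_right (M ^ 2) (M ^ 4)).trans ?_
    exact Nat.le_mul_of_pos_left _ (by omega)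
  have hMd : ∀ d, d ≤ 5 * s → 4 * Fintype.card Y * (d + 1) + 2 ≤ M := by
    intro d hd
    have : 4 * Fintype.card Y * (d + 1) ≤ 4 * Fintype.card Y * (5 * s + 1) :=
      Nat.mul_le_mul_left _ (by omega)
    omega
  have hMb : ∀ R, R ≤ s → 4 * Fintype.card Y * (5 * R - 4) + 2 ≤ M := by
    intro R hR
    have : 4 * Fintype.card Y * (5 * R - 4) ≤ 4 * Fintype.card Y * (5 * s + 1) :=
      Nat.mul_le_mul_left _ (by omega)
    omega
  induction F with
  | const c => simp [Fml.reads] at h
  | item j f =>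
    by_cases hj : j = i
    · subst hj
      have h1 := (cov_of_finite (M := M) (κ := Unit) (fun _ (v : Y) => f (y v))).un
        (hMd 0 (by omega))
      refine h1.mono ?_ ?_ ?_
      · simp [Fml.reads]
      · simp only [Fml.reads, if_true, Fintype.card_unit, one_mul]
        rw [show 3 * 1 ^ 2 - 2 = 1 by norm_num, pow_one]
        refine le_trans ?_ hB1
        exact Nat.le_mul_of_pos_left _ (by omega)
      · rintro g ⟨z, u, hu, rfl⟩
        refine ⟨fun v => f (y v), ⟨(), rfl⟩, u, hu, ?_⟩
        funext v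
        simp [Fml.eval]
    · simp [Fml.reads, hj] at h
  | word τ =>
    by_cases hτ : τ.Sees i
    · obtain ⟨κ, _, f, hκ, hf⟩ := τ.family i y hτ
      have h1 := (cov_of_finite (M := M) f).un (hMd 0 (by omega))
      refine h1.mono ?_ ?_ ?_
      · simp [Fml.reads, hτ]
      · simp only [Fml.reads, hτ, if_true]
        rw [show 3 * 1 ^ 2 - 2 = 1 by norm_num, pow_one]
        exact (Nat.mul_le_mul_right _ hκ).trans hB2
      · rintro g ⟨z, u, hu, rfl⟩
        exact ⟨_, hf z, u, hu, rfl⟩
    · simp [Fml.reads, hτ] at h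
  | pos F ih =>
    simp only [Fml.size] at hs
    simp only [Fml.reads] at h ⊢
    refine (ih hs h).mono le_rfl le_rfl ?_
    rintro g ⟨z, u, hu, rfl⟩
    refine ⟨z, _, Un.bool (fun b => u (if b then 1 else 0)), ?_⟩
    funext v
    simp only [Fml.eval, decide_eq_true_eq]
  | sym k H F ih =>
    simp only [Fml.size] at hs
    simp only [Fml.reads] at h ⊢
    have hsj : ∀ j, (F j).size ≤ ∑ j, (F j).size := fun j =>
      single_le_sum (f := fun j => (F j).size) (fun _ _ => Nat.zero_le _) (mem_univ j)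
    have hrj : ∀ j, (F j).reads i ≤ ∑ j, (F j).reads i := fun j =>
      single_le_sum (f := fun j => (F j).reads i) (fun _ _ => Nat.zero_le _) (mem_univ j)
    have hrs : ∑ j, (F j).reads i ≤ ∑ j, (F j).size := sum_le_sum fun j _ => (F j).reads_le_size i
    by_cases hA : ∃ j0, ∀ j, j ≠ j0 → (F j).reads i = 0
    · -- one live child
      obtain ⟨j0, hj0⟩ := hA
      have e : ∑ j, (F j).reads i = (F j0).reads i :=
        sum_eq_single j0 (fun j _ hj => hj0 j hj) (fun hj => absurd (mem_univ _) hj)
      rw [e] at h ⊢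
      refine (ih j0 (by have := hsj j0; omega) h).mono le_rfl le_rfl ?_
      rintro g ⟨z, u, hu, rfl⟩
      refine ⟨z, _, Un.bool (fun b => u (H ((univ.filter (fun j => j ≠ j0 ∧
        0 < (F j).eval z)).card + if b then 1 else 0))), ?_⟩
      funext v
      simp only [Fml.eval, decide_eq_true_eq]
      congr 2
      have e2 : univ.filter (fun j => 0 < (F j).eval (Function.update z i (y v))) =
          univ.filter (fun j => j ≠ j0 ∧ 0 < (F j).eval z) ∪
          (if 0 < (F j0).eval (Function.update z i (y v)) then {j0} else ∅) := by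
        ext j
        rw [mem_filter, mem_union, mem_filter]
        by_cases hj : j = j0
        · subst hj
          split_ifs with h5 <;> simp [h5]
        · rw [(F j).eval_update i (hj0 j hj)]
          split_ifs <;> simp [hj]
      rw [e2, card_union_of_disjoint]
      · congr 1
        split_ifs <;> simp
      · split_ifs
        · rw [disjoint_singleton_right]
          simp
        · simp
    · -- the Boolean functions of the children
      have hS : ∀ j, ∃ S : Finset (Y → Bool), S.card ≤ B ^ (3 * (F j).reads i ^ 2 - 2) ∧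
          ∀ z, (fun v => decide ((F j).reads i ≠ 0 ∧
            0 < (F j).eval (Function.update z i (y v)))) ∈ S := by
        intro j
        have := hsj j
        have := hrj j
        exact boolSet i y M B hB3 (F j) (ih j (by omega)) (hMb _ (by omega))
      choose S hS1 hS2 using hS
      obtain ⟨f, hf⟩ : ∃ f : (Fin (k + 1) × ((j : Fin k) → {x : Y → Bool // x ∈ S j})) → Y → ℝ,
          ∀ (c : Fin (k + 1) × ((j : Fin k) → {x : Y → Bool // x ∈ S j})) (v : Y),
            f c v = H (c.1.val + (univ.filter (fun j : Fin k => (c.2 j).1 v = true)).card) :=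
        ⟨fun c v => H (c.1.val + (univ.filter (fun j : Fin k => (c.2 j).1 v = true)).card),
          fun _ _ => rfl⟩
      have h1 := (cov_of_finite (M := M) f).un (hMd 0 (by omega))
      have hcard := two_live (fun j => (F j).reads i) hA h
      obtain ⟨hg1, _, _, _⟩ := gate (fun j => (F j).reads i) hcard
      refine h1.mono (by omega) ?_ ?_
      · rw [Fintype.card_prod, Fintype.card_fin, Fintype.card_pi]
        simp only [Fintype.card_coe]
        calc (k + 1) * (∏ j, (S j).card) * (M ^ 2 + M ^ 4)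
            ≤ M * (∏ j, B ^ (3 * (F j).reads i ^ 2 - 2)) * (M ^ 2 + M ^ 4) := by
              apply Nat.mul_le_mul_right
              exact Nat.mul_le_mul (by omega) (prod_le_prod' fun j _ => hS1 j)
          _ = B ^ (∑ j, (3 * (F j).reads i ^ 2 - 2)) * (M * (M ^ 2 + M ^ 4)) := by
              rw [prod_pow_eq_pow_sum]
              ring
          _ ≤ B ^ (∑ j, (3 * (F j).reads i ^ 2 - 2)) * B := Nat.mul_le_mul_left _ hB1
          _ = B ^ (∑ j, (3 * (F j).reads i ^ 2 - 2) + 1) := by rw [pow_succ]
          _ ≤ B ^ (3 * (∑ j, (F j).reads i) ^ 2 - 2) := Nat.pow_le_pow_right hB3 (by omega)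
      · rintro g ⟨z, u, hu, rfl⟩
        refine ⟨fun v => (Fml.sym k H F).eval (Function.update z i (y v)), ?_, u, hu, rfl⟩
        refine ⟨(⟨(univ.filter (fun j => (F j).reads i = 0 ∧ 0 < (F j).eval z)).card, ?_⟩,
          fun j => ⟨_, hS2 j z⟩), ?_⟩
        · have := card_filter_le (univ : Finset (Fin k))
            (fun j => (F j).reads i = 0 ∧ 0 < (F j).eval z)
          rw [card_univ, Fintype.card_fin] at this
          omega
        · funext v
          rw [hf]
          simp only [Fml.eval, decide_eq_true_eq]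
          congr 1
          have e2 : univ.filter (fun j => 0 < (F j).eval (Function.update z i (y v))) =
              univ.filter (fun j => (F j).reads i = 0 ∧ 0 < (F j).eval z) ∪
              univ.filter (fun j => (F j).reads i ≠ 0 ∧
                0 < (F j).eval (Function.update z i (y v))) := by
            ext j
            rw [mem_filter, mem_union, mem_filter, mem_filter]
            by_cases hj : (F j).reads i = 0
            · rw [(F j).eval_update i hj]
              simp [hj]
            · simp [hj]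
          rw [e2, card_union_of_disjoint]
          rw [disjoint_filter]
          rintro j - ⟨h5, -⟩ ⟨h6, -⟩
          exact h6 h5
  | det m F ih =>
    simp only [Fml.size] at hs
    simp only [Fml.reads] at h ⊢
    obtain ⟨R, hR⟩ : ∃ R : Fin m × Fin m → ℕ, ∀ e, R e = (F e.1 e.2).reads i := ⟨_, fun _ => rfl⟩
    have hRs : ∑ a, ∑ b, (F a b).reads i = ∑ e, R e := by
      rw [Fintype.sum_prod_type]
      simp only [hR]
    have hse : ∀ a b, (F a b).size ≤ ∑ a, ∑ b, (F a b).size := fun a b =>
      (single_le_sum (f := fun b => (F a b).size) (fun _ _ => Nat.zero_le _) (mem_univ b)).trans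
        (single_le_sum (f := fun a => ∑ b, (F a b).size) (fun _ _ => Nat.zero_le _) (mem_univ a))
    have hrs : ∑ e, R e ≤ ∑ a, ∑ b, (F a b).size := by
      rw [← hRs]
      exact sum_le_sum fun a _ => sum_le_sum fun b _ => (F a b).reads_le_size i
    rw [hRs] at h ⊢
    by_cases hA : ∃ e0, ∀ e, e ≠ e0 → R e = 0
    · -- one live entry
      obtain ⟨⟨a0, b0⟩, he0⟩ := hA
      have e : ∑ e, R e = R (a0, b0) :=
        sum_eq_single (a0, b0) (fun e _ he => he0 e he) (fun he => absurd (mem_univ _) he)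
      rw [e, hR] at h ⊢
      refine (ih a0 b0 (by have := hse a0 b0; omega) h).mono le_rfl le_rfl ?_
      rintro g ⟨z, u, hu, rfl⟩
      obtain ⟨α, β, hαβ⟩ := det_affine (Matrix.of fun a b => (F a b).eval z) a0 b0
      refine ⟨z, _, (hu.comp_add β).comp_mul α, ?_⟩
      funext v
      rw [← hαβ]
      simp only [Fml.eval]
      congr 2
      ext a b
      simp only [Matrix.of_apply]
      by_cases hab : (a, b) = (a0, b0)
      · rw [if_pos hab]
        have h1 : a = a0 := congrArg Prod.fst hab
        have h2 : b = b0 := congrArg Prod.snd hab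
        rw [h1, h2]
      · rw [if_neg hab, (F a b).eval_update i (by rw [← hR (a, b)]; exact he0 _ hab)]
    · have hcard := two_live R hA h
      obtain ⟨hg1, hg2, hg3, hEr⟩ := gate R hcard
      obtain ⟨E, hE⟩ : ∃ E : Finset (Fin m × Fin m), E = univ.filter (fun e => R e ≠ 0) :=
        ⟨_, rfl⟩
      rw [← hE] at hcard hg1 hg2 hg3 hEr
      have hmemE : ∀ e, e ∈ E ↔ R e ≠ 0 := by
        intro e
        rw [hE, mem_filter]
        simp
      have h1 := (hc Y M m (by omega) E (fun e => 5 * R e - 4) (fun e => B ^ (3 * R e ^ 2 - 2))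
        (fun e => (F e.1 e.2).Sub i y) (by
          intro e he
          have h3 := (hmemE e).1 he
          simp only [hR] at h3 ⊢
          have := hse e.1 e.2
          exact ih e.1 e.2 (by omega) (by omega))).un (hMd _ (by omega))
      refine h1.mono (by omega) ?_ ?_
      · rw [prod_pow_eq_pow_sum, ← hg3]
        calc M ^ (2 * E.card ^ 2 + 1) * B ^ (∑ e, (3 * R e ^ 2 - 2)) * (M ^ 2 + M ^ 4)
            = B ^ (∑ e, (3 * R e ^ 2 - 2)) * (M ^ (2 * E.card ^ 2 + 1) * (M ^ 2 + M ^ 4)) := by
              ring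
          _ ≤ B ^ (∑ e, (3 * R e ^ 2 - 2)) * B ^ (E.card ^ 2 + 1) :=
              Nat.mul_le_mul_left _ (wt _ hB1 hB4)
          _ = B ^ (∑ e, (3 * R e ^ 2 - 2) + (E.card ^ 2 + 1)) := (pow_add _ _ _).symm
          _ ≤ B ^ (3 * (∑ e, R e) ^ 2 - 2) := Nat.pow_le_pow_right hB3 (by omega)
      · rintro g ⟨z, u, hu, rfl⟩
        refine ⟨fun v => (Fml.det m F).eval (Function.update z i (y v)), ?_, u, hu, rfl⟩
        refine ⟨Matrix.of fun a b => (F a b).eval z, fun e v =>
          (F e.1 e.2).eval (Function.update z i (y v)), fun e _ => Fml.mem_sub_id i y _ z, ?_⟩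
        funext v
        simp only [Fml.eval]
        congr 2
        funext a b
        simp only [Matrix.of_apply]
        by_cases hab : (a, b) ∈ E
        · rw [if_pos hab]
        · rw [if_neg hab, (F a b).eval_update i (by
            rw [hmemE, not_not, hR] at hab
            exact hab)]
  | reg K inst m c c' F ih =>
    simp only [Fml.size] at hs
    simp only [Fml.reads] at h ⊢
    obtain ⟨R, hR⟩ : ∃ R : Fin m × Fin m → ℕ, ∀ e, R e = (F e.1 e.2).reads i := ⟨_, fun _ => rfl⟩
    have hRs : ∑ a, ∑ b, (F a b).reads i = ∑ e, R e := by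
      rw [Fintype.sum_prod_type]
      simp only [hR]
    have hse : ∀ a b, (F a b).size ≤ ∑ a, ∑ b, (F a b).size := fun a b =>
      (single_le_sum (f := fun b => (F a b).size) (fun _ _ => Nat.zero_le _) (mem_univ b)).trans
        (single_le_sum (f := fun a => ∑ b, (F a b).size) (fun _ _ => Nat.zero_le _) (mem_univ a))
    have hrs : ∑ e, R e ≤ ∑ a, ∑ b, (F a b).size := by
      rw [← hRs]
      exact sum_le_sum fun a _ => sum_le_sum fun b _ => (F a b).reads_le_size i
    rw [hRs] at h ⊢
    by_cases hA : ∃ e0, ∀ e, e ≠ e0 → R e = 0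
    · -- one live entry
      obtain ⟨⟨a0, b0⟩, he0⟩ := hA
      have e : ∑ e, R e = R (a0, b0) :=
        sum_eq_single (a0, b0) (fun e _ he => he0 e he) (fun he => absurd (mem_univ _) he)
      rw [e, hR] at h ⊢
      refine (ih a0 b0 (by have := hse a0 b0; omega) h).mono le_rfl le_rfl ?_
      rintro g ⟨z, u, hu, rfl⟩
      refine ⟨z, _, Un.bool (fun t => u (if (Matrix.of fun a b => if (a, b) = (a0, b0) then
        (if t = true then c' a0 b0 else c a0 b0) else
        (if 0 < (F a b).eval z then c' a b else c a b)).det ≠ 0 then 1 else 0)), ?_⟩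
      funext v
      simp only [decide_eq_true_eq]
      rw [Fml.eval_reg]
      have e3 : (Matrix.of fun a b => if 0 < (F a b).eval (Function.update z i (y v)) then
          c' a b else c a b) = (Matrix.of fun a b => if (a, b) = (a0, b0) then
          (if 0 < (F a0 b0).eval (Function.update z i (y v)) then c' a0 b0 else c a0 b0) else
          (if 0 < (F a b).eval z then c' a b else c a b)) := by
        ext a b
        simp only [Matrix.of_apply]
        by_cases hab : (a, b) = (a0, b0)
        · rw [if_pos hab]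
          have h1 : a = a0 := congrArg Prod.fst hab
          have h2 : b = b0 := congrArg Prod.snd hab
          rw [h1, h2]
        · rw [if_neg hab, (F a b).eval_update i (by rw [← hR (a, b)]; exact he0 _ hab)]
      rw [e3]
    · have hcard := two_live R hA h
      obtain ⟨hg1, hg2, hg3, hEr⟩ := gate R hcard
      obtain ⟨E, hE⟩ : ∃ E : Finset (Fin m × Fin m), E = univ.filter (fun e => R e ≠ 0) :=
        ⟨_, rfl⟩
      rw [← hE] at hcard hg1 hg2 hg3 hEr
      have hmemE : ∀ e, e ∈ E ↔ R e ≠ 0 := by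
        intro e
        rw [hE, mem_filter]
        simp
      have hS : ∀ e : Fin m × Fin m, ∃ S : Finset (Y → Bool), S.card ≤ B ^ (3 * R e ^ 2 - 2) ∧
          ∀ z, (fun v => decide (R e ≠ 0 ∧
            0 < (F e.1 e.2).eval (Function.update z i (y v)))) ∈ S := by
        intro e
        rw [hR]
        have := hse e.1 e.2
        have := (F e.1 e.2).reads_le_size i
        exact boolSet i y M B hB3 (F e.1 e.2) (ih e.1 e.2 (by omega)) (hMb _ (by omega))
      choose S hS1 hS2 using hS
      have hT : ∀ β : ((e : Fin m × Fin m) → {x : Y → Bool // x ∈ S e}),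
          ∃ T : Finset (Y → Bool), T.card ≤ M ^ (2 * E.card ^ 2 + 1) ∧
            ∀ A : Matrix (Fin m) (Fin m) K, (fun v => decide ((Matrix.of fun x y =>
              if (x, y) ∈ E then (if (β (x, y)).1 v = true then c' x y else c x y)
              else A x y).det ≠ 0)) ∈ T := fun β =>
        hr K Y m M E c c' (fun e => (β e).1) (by
          have : Fintype.card Y * (E.card + 1) ≤ 4 * Fintype.card Y * (5 * s + 1) :=
            Nat.mul_le_mul (by omega) (by omega)
          omega)
      choose T hT1 hT2 using hT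
      obtain ⟨f, hf⟩ : ∃ f : (Σ β : ((e : Fin m × Fin m) → {x : Y → Bool // x ∈ S e}),
          {x : Y → Bool // x ∈ T β}) → Y → ℝ,
          ∀ (d : Σ β : ((e : Fin m × Fin m) → {x : Y → Bool // x ∈ S e}),
            {x : Y → Bool // x ∈ T β}) (v : Y), f d v = if d.2.1 v = true then 1 else 0 :=
        ⟨fun d v => if d.2.1 v = true then 1 else 0, fun _ _ => rfl⟩
      have h1 := (cov_of_finite (M := M) f).un (hMd 0 (by omega))
      refine h1.mono (by omega) ?_ ?_
      · rw [Fintype.card_sigma]
        simp only [Fintype.card_coe]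
        calc (∑ β, (T β).card) * (M ^ 2 + M ^ 4)
            ≤ (∑ β : ((e : Fin m × Fin m) → {x : Y → Bool // x ∈ S e}),
                M ^ (2 * E.card ^ 2 + 1)) * (M ^ 2 + M ^ 4) :=
              Nat.mul_le_mul_right _ (sum_le_sum fun β _ => hT1 β)
          _ = (∏ e, (S e).card) * (M ^ (2 * E.card ^ 2 + 1) * (M ^ 2 + M ^ 4)) := by
              rw [sum_const, card_univ, Fintype.card_pi, smul_eq_mul]
              simp only [Fintype.card_coe]
              ring
          _ ≤ (∏ e, B ^ (3 * R e ^ 2 - 2)) * B ^ (E.card ^ 2 + 1) :=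
              Nat.mul_le_mul (prod_le_prod' fun e _ => hS1 e) (wt _ hB1 hB4)
          _ = B ^ (∑ e, (3 * R e ^ 2 - 2) + (E.card ^ 2 + 1)) := by
              rw [prod_pow_eq_pow_sum, ← pow_add]
          _ ≤ B ^ (3 * (∑ e, R e) ^ 2 - 2) := Nat.pow_le_pow_right hB3 (by omega)
      · rintro g ⟨z, u, hu, rfl⟩
        refine ⟨fun v => (Fml.reg K inst m c c' F).eval (Function.update z i (y v)), ?_, u, hu,
          rfl⟩
        refine ⟨⟨fun e => ⟨_, hS2 e z⟩, ⟨_, hT2 (fun e => ⟨_, hS2 e z⟩)
          (Matrix.of fun a b => if 0 < (F a b).eval z then c' a b else c a b)⟩⟩, ?_⟩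
        funext v
        rw [hf, Fml.eval_reg]
        simp only [decide_eq_true_eq]
        have e3 : (Matrix.of fun a b => if 0 < (F a b).eval (Function.update z i (y v)) then
            c' a b else c a b) = (Matrix.of fun x y_1 => if (x, y_1) ∈ E then
            (if R (x, y_1) ≠ 0 ∧ 0 < (F x y_1).eval (Function.update z i (y v)) then c' x y_1
              else c x y_1) else
            (Matrix.of fun a b => if 0 < (F a b).eval z then c' a b else c a b) x y_1) := by
          ext a b
          simp only [Matrix.of_apply]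
          by_cases hab : (a, b) ∈ E
          · rw [if_pos hab]
            have h5 := (hmemE _).1 hab
            simp only [ne_eq, h5, not_false_eq_true, true_and]
          · rw [if_neg hab, (F a b).eval_update i (by
              rw [hmemE, not_not, hR] at hab
              exact hab)]
        rw [e3]

open Classical in
theorem core (hc : S_COV) (hr : S_REG) : S_SUB := by
  intro ι D _ w q Y _ i y s M B hq hM hB F hs
  obtain ⟨hB1, hB2, hB3⟩ := Pool.Agent.Y638.RF.Fml.base_bound (M := M) (B := B) (q := q) (w := w)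
    (by omega) hq hB
  by_cases h : F.reads i = 0
  · refine ⟨(univ : Finset Bool).image (fun c => fun _ => c), ?_, fun z => ?_⟩
    · refine card_image_le.trans ?_
      simp [h]
    · rw [mem_image]
      refine ⟨F.accepts z, mem_univ _, ?_⟩
      funext v
      unfold Fml.accepts
      rw [F.eval_update i h]
  · have hr' := F.reads_le_size i
    obtain ⟨S, h1, h2⟩ := (cov hc hr i y s M B hq hM hB F hs (by omega)).bool (by
      have : 4 * Fintype.card Y * (5 * F.reads i - 4) ≤ 4 * Fintype.card Y * (5 * s + 1) :=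
        Nat.mul_le_mul_left _ (by omega)
      omega)
    refine ⟨S, h1.trans ?_, fun z => ?_⟩
    · calc B ^ (3 * F.reads i ^ 2 - 2) ≤ B ^ (3 * F.reads i ^ 2) :=
          Nat.pow_le_pow_right hB3 (by omega)
        _ ≤ 2 * B ^ (3 * F.reads i ^ 2) := by omega
    · have h9 := h2 _ (F.mem_sub_id i y z)
      exact h9

end Pool.Agent.Y73.DG
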